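import Pool.Agent.H89.Per.Close

set_option autoImplicit false

/-! MP_2e6055: an algorithm of average cost below the power `7/4` for the crossings of boxes by
critical site percolation on the triangular lattice. -/

namespace Pool.Agent.Results.MP_2e6055_pr.BelowSevenFourths

/-- The sites of the `a × b` box: pairs `(i, j)` with `0 ≤ i < a` and `0 ≤ j < b`. -/
abbrev Site (a b : ℕ) : Type := Fin a × Fin b

/-- A configuration: every site is black (`true`) or white (`false`). -/
abbrev Config (a b : ℕ) : Type := Site a b → Bool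

/-- Neighbours in the triangular lattice, whose site `(i, j)` is the point `(i + j / 2, j * √3 / 2)`
of the plane: the difference of the coordinates is one of the six vectors of length one. -/
def Nbr {a b : ℕ} (x y : Site a b) : Prop :=
  ((y.1 : ℤ) - x.1, (y.2 : ℤ) - x.2) ∈
    ({(1, 0), (-1, 0), (0, 1), (0, -1), (1, -1), (-1, 1)} : Set (ℤ × ℤ))

/-- There is a black path `p 0, p 1, ..., p k` in the box from its left side (first coordinate `0`)
to its right side (first coordinate `a - 1`). -/
def Crossing (a b : ℕ) (ω : Config a b) : Prop :=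
  ∃ (k : ℕ) (p : ℕ → Site a b), ((p 0).1 : ℕ) = 0 ∧ ((p k).1 : ℕ) = a - 1 ∧
    (∀ i ≤ k, ω (p i) = true) ∧ ∀ i < k, Nbr (p i) (p (i + 1))

/-- An algorithm without auxiliary randomness: it stops, or it reveals the state of the site `x` and
goes on with the algorithm `next s`, where `s` is the state of `x`. -/
inductive Algorithm (V : Type) : Type
  | stop : Algorithm V
  | reveal (x : V) (next : Bool → Algorithm V) : Algorithm V

/-- The set of the sites revealed by the algorithm when the configuration is `ω`. -/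
def Algorithm.revealed {V : Type} [DecidableEq V] : Algorithm V → (V → Bool) → Finset V
  | .stop, _ => ∅
  | .reveal x next, ω => insert x ((next (ω x)).revealed ω)

/-- The algorithm determines `f`: when it stops, the states of the revealed sites determine the
value of `f`. -/
def Algorithm.Determines {V : Type} [DecidableEq V] (A : Algorithm V) (f : (V → Bool) → Prop) :
    Prop :=
  ∀ ω ω' : V → Bool, (∀ x ∈ A.revealed ω, ω' x = ω x) → (f ω' ↔ f ω)

/-- The average cost: the mean of the number of revealed sites when every site is black with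
probability `1/2`, independently of the others. -/
noncomputable def Algorithm.averageCost {V : Type} [Fintype V] [DecidableEq V] (A : Algorithm V) :
    ℝ :=
  (∑ ω : V → Bool, ((A.revealed ω).card : ℝ)) / 2 ^ Fintype.card V

/-! ### Proof -/

open Pool.Agent.H89.Per
open Pool.Agent.H74.Tri (CR)

/-- an algorithm from a tree -/
def ofDT {V : Type} : DT V → Algorithm V
  | DT.leaf => .stop
  | DT.ask x k => .reveal x (fun b => ofDT (k b))

theorem card_le {V : Type} [DecidableEq V] (t : DT V) (ω : V → Bool) :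
    ((ofDT t).revealed ω).card ≤ qcount t ω := by
  induction t with
  | leaf => simp [ofDT, Algorithm.revealed, qcount]
  | ask x k ih =>
    have h := ih (ω x)
    simp only [ofDT, Algorithm.revealed, qcount]
    have h1 := Finset.card_insert_le x ((ofDT (k (ω x))).revealed ω)
    omega

open Classical in
theorem upd_cases {V : Type} {ρ : V → Option Bool} {x s : V} {c b : Bool}
    (h : Function.update ρ x (some c) s = some b) : (s = x ∧ c = b) ∨ ρ s = some b := by
  by_cases hs : s = x
  · left
    rw [hs, Function.update_self] at h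
    exact ⟨hs, Option.some.inj h⟩
  · right
    rw [Function.update_of_ne hs] at h
    exact h

theorem final_mem {V : Type} [DecidableEq V] (t : DT V) (ω : V → Bool) :
    ∀ (ρ : V → Option Bool), Agrees ρ ω → ∀ s b, final t ρ ω s = some b → ρ s = some b ∨
      (s ∈ (ofDT t).revealed ω ∧ ω s = b) := by
  induction t with
  | leaf => intro ρ _ s b h; exact Or.inl h
  | ask x k ih =>
    intro ρ hρ s b h
    rcases option_cases (ρ x) with hx | ⟨c, hx⟩
    · rw [final_none hx] at h
      rcases ih (ω x) _ (agrees_update hρ x) s b h with h1 | ⟨h1, h2⟩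
      · rcases upd_cases h1 with ⟨hs, hb⟩ | h2
        · right
          rw [hs]
          exact ⟨Finset.mem_insert_self _ _, hb⟩
        · exact Or.inl h2
      · exact Or.inr ⟨Finset.mem_insert_of_mem h1, h2⟩
    · rw [final_some hx] at h
      have hc : ω x = c := hρ x c hx
      rcases ih c _ hρ s b h with h1 | ⟨h1, h2⟩
      · exact Or.inl h1
      · refine Or.inr ⟨Finset.mem_insert_of_mem ?_, h2⟩
        rw [hc]
        exact h1

theorem determines_of {V : Type} [DecidableEq V] {t : DT V} {f : (V → Bool) → Prop}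
    (h : Decides t f) : (ofDT t).Determines f := by
  intro ω ω' hag
  refine h ω ω ω' (final_agrees t _ ω (agrees_none ω)) ?_
  intro s b hs
  rcases final_mem t ω _ (agrees_none ω) s b hs with h1 | ⟨h1, h2⟩
  · simp at h1
  · rw [hag s h1, h2]

theorem nbr_iff {a b : ℕ} (x y : Site a b) :
    Nbr x y ↔ Pool.Agent.H7.UC.adjF (Pool.Agent.H74.Tri.em x) (Pool.Agent.H74.Tri.em y) := by
  rw [Pool.Agent.H74.Tri.adjF_iff]
  unfold Nbr Pool.Agent.H74.Tri.em
  simp only [Set.mem_insert_iff, Set.mem_singleton_iff, Prod.mk.injEq]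
  omega

theorem crossing_iff {a b : ℕ} (ha : 1 ≤ a) (ω : Config a b) : Crossing a b ω ↔ crF a b ω := by
  constructor
  · rintro ⟨k, p, h1, h2, h3, h4⟩
    refine ⟨Pool.Agent.H74.Tri.em (p 0), Pool.Agent.H74.Tri.em (p k), Pool.Agent.H74.Tri.em_mem _,
      Pool.Agent.H74.Tri.em_mem _, ?_, ?_, ?_, ?_⟩
    · show ((p 0).1.val : ℤ) = 0
      omega
    · show ((p k).1.val : ℤ) = a - 1
      omega
    · rw [Pool.Agent.H74.Tri.ext_em]
      exact h3 0 (Nat.zero_le _)
    · have key : ∀ i ≤ k, Pool.Agent.H74.Tri.Jn {z | z ∈ Pool.Agent.H74.Tri.box a b ∧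
          Pool.Agent.H74.Tri.ext a b ω z = true} (Pool.Agent.H74.Tri.em (p 0))
          (Pool.Agent.H74.Tri.em (p i)) := by
        intro i
        induction i with
        | zero => intro _; exact Pool.Agent.H74.Tri.Jn.refl _
        | succ i ih =>
          intro hi
          refine (ih (by omega)).step ⟨Pool.Agent.H74.Tri.em_mem _, ?_⟩
            ((nbr_iff _ _).1 (h4 i (by omega)))
          rw [Pool.Agent.H74.Tri.ext_em]
          exact h3 (i + 1) hi
      exact key k le_rfl
  · rintro ⟨u, v, h1, h2, h3, h4, h5, h6⟩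
    obtain ⟨u', rfl⟩ := Pool.Agent.H74.Tri.exists_em h1
    obtain ⟨v', rfl⟩ := Pool.Agent.H74.Tri.exists_em h2
    rw [Pool.Agent.H74.Tri.ext_em] at h5
    have hu1 : (u'.1.val : ℤ) = 0 := h3
    have hv1 : (v'.1.val : ℤ) = a - 1 := h4
    have key : ∀ g, Pool.Agent.H74.Tri.Jn {z | z ∈ Pool.Agent.H74.Tri.box a b ∧
        Pool.Agent.H74.Tri.ext a b ω z = true} (Pool.Agent.H74.Tri.em u') g →
        ∀ y : Site a b, Pool.Agent.H74.Tri.em y = g → ∃ (k : ℕ) (p : ℕ → Site a b),
          p 0 = u' ∧ p k = y ∧ (∀ i ≤ k, ω (p i) = true) ∧ ∀ i < k, Nbr (p i) (p (i + 1)) := by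
      intro g hg
      induction hg with
      | refl =>
        intro y hy
        refine ⟨0, fun _ => u', rfl, (Pool.Agent.H74.Tri.em_inj hy).symm, fun i _ => h5, ?_⟩
        intro i hi
        omega
      | @tail c d hc hd ih =>
        intro y hy
        have hcm : c ∈ {z | z ∈ Pool.Agent.H74.Tri.box a b ∧
            Pool.Agent.H74.Tri.ext a b ω z = true} := by
          refine Pool.Agent.H74.Tri.Jn.mem hc ⟨h1, ?_⟩
          rw [Pool.Agent.H74.Tri.ext_em]
          exact h5
        obtain ⟨x, hx⟩ := Pool.Agent.H74.Tri.exists_em hcm.1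
        obtain ⟨k, p, p0, pk, pb, pn⟩ := ih x hx
        have hy1 : ω y = true := by
          rw [← Pool.Agent.H74.Tri.ext_em ω y, hy]
          exact hd.1.2
        have hxy : Nbr x y := by
          rw [nbr_iff, hx, hy]
          exact hd.2
        refine ⟨k + 1, fun i => if i ≤ k then p i else y, ?_, ?_, ?_, ?_⟩
        · simp [p0]
        · simp
        · intro i hi
          by_cases h : i ≤ k
          · simp only [h, if_true]
            exact pb i h
          · simp only [h, if_false]
            exact hy1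
        · intro i hi
          have hik : i ≤ k := by omega
          by_cases h : i + 1 ≤ k
          · simp only [hik, h, if_true]
            exact pn i (by omega)
          · have e : i = k := by omega
            subst e
            simp only [le_refl, if_true, h, if_false]
            rw [pk]
            exact hxy
    obtain ⟨k, p, p0, pk, pb, pn⟩ := key _ h6 v' rfl
    refine ⟨k, p, ?_, ?_, pb, pn⟩
    · rw [p0]; omega
    · rw [pk]; omega

/-- **An algorithm of average cost below the power `7/4`.** There are `ε > 0` and `n₀` such that for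
all `n ≥ n₀` and all boxes with sides `a, b ≤ n`, some algorithm (without auxiliary randomness)
determines whether there is a black path in the box from its left side to its right side, and
reveals on average at most `n ^ (7/4 - ε)` sites. -/
theorem result : ∃ ε : ℝ, 0 < ε ∧ ∃ n₀ : ℕ, ∀ n : ℕ, n₀ ≤ n → ∀ a b : ℕ, 1 ≤ a → a ≤ n → 1 ≤ b →
    b ≤ n → ∃ A : Algorithm (Site a b), A.Determines (Crossing a b) ∧
      A.averageCost ≤ (n : ℝ) ^ ((7 : ℝ) / 4 - ε) := by
  obtain ⟨ε, M, hε, hstep⟩ := size_step jb_final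
  have H := has_of_step hstep
  set e : ℝ := min ε 1 with he
  have he0 : 0 < e := lt_min hε one_pos
  have he1 : e ≤ 1 := min_le_right _ _
  have heε : e ≤ ε := min_le_left _ _
  set K : ℝ := max M 1 with hK
  have hK1 : 1 ≤ K := le_max_right _ _
  have hKM : M ≤ K := le_max_left _ _
  obtain ⟨n₀, hn₀⟩ := exists_nat_ge (K ^ (2 / e))
  refine ⟨e / 2, by positivity, max n₀ 1, ?_⟩
  intro n hn a b ha han hb hbn
  have hn1 : 1 ≤ n := (le_max_right _ _).trans hn
  have hnn : n₀ ≤ n := (le_max_left _ _).trans hn
  have hnr : (0 : ℝ) < n := by exact_mod_cast hn1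
  obtain ⟨t, ht, _, hq⟩ := H a b ha hb
  refine ⟨ofDT t, ?_, ?_⟩
  · have h1 : Decides t (Crossing a b) := decides_congr ht (fun ω => crossing_iff ha ω)
    exact determines_of h1
  · have h2 : (ofDT t).averageCost ≤ avg (fun ω => (qcount t ω : ℝ)) := by
      unfold Algorithm.averageCost avg
      refine div_le_div_of_nonneg_right ?_ (by positivity)
      refine (Finset.sum_le_sum (g := fun ω => (qcount t ω : ℝ)) (fun ω _ => ?_)).trans
        (le_of_eq ?_)
      · exact_mod_cast card_le t ω
      · refine Finset.sum_congr ?_ (fun _ _ => rfl)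
        ext ω
        simp
    have hm1 : (1 : ℝ) ≤ ((max a b : ℕ) : ℝ) := by
      exact_mod_cast ha.trans (le_max_left a b)
    have hmn : ((max a b : ℕ) : ℝ) ≤ n := by
      exact_mod_cast max_le han hbn
    have h3 : M * ((max a b : ℕ) : ℝ) ^ ((7 : ℝ) / 4 - ε) ≤ K * (n : ℝ) ^ ((7 : ℝ) / 4 - e) := by
      have h4 : ((max a b : ℕ) : ℝ) ^ ((7 : ℝ) / 4 - ε) ≤
          ((max a b : ℕ) : ℝ) ^ ((7 : ℝ) / 4 - e) :=
        Real.rpow_le_rpow_of_exponent_le hm1 (by linarith)
      have h5 : ((max a b : ℕ) : ℝ) ^ ((7 : ℝ) / 4 - e) ≤ (n : ℝ) ^ ((7 : ℝ) / 4 - e) :=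
        Real.rpow_le_rpow (by linarith) hmn (by linarith)
      have h6 : (0 : ℝ) ≤ ((max a b : ℕ) : ℝ) ^ ((7 : ℝ) / 4 - ε) := by positivity
      calc M * ((max a b : ℕ) : ℝ) ^ ((7 : ℝ) / 4 - ε)
          ≤ K * ((max a b : ℕ) : ℝ) ^ ((7 : ℝ) / 4 - ε) := mul_le_mul_of_nonneg_right hKM h6
        _ ≤ K * (n : ℝ) ^ ((7 : ℝ) / 4 - e) :=
            mul_le_mul_of_nonneg_left (h4.trans h5) (by linarith)
    have h7 : K ≤ (n : ℝ) ^ (e / 2) := by
      have h8 : K ^ (2 / e) ≤ (n : ℝ) := hn₀.trans (by exact_mod_cast hnn)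
      have h9 : (K ^ (2 / e)) ^ (e / 2) ≤ (n : ℝ) ^ (e / 2) :=
        Real.rpow_le_rpow (by positivity) h8 (by positivity)
      have h10 : (K ^ (2 / e)) ^ (e / 2) = K := by
        rw [← Real.rpow_mul (by linarith)]
        have : 2 / e * (e / 2) = 1 := by field_simp
        rw [this, Real.rpow_one]
      rwa [h10] at h9
    calc (ofDT t).averageCost ≤ avg (fun ω => (qcount t ω : ℝ)) := h2
      _ ≤ M * ((max a b : ℕ) : ℝ) ^ ((7 : ℝ) / 4 - ε) := hq
      _ ≤ K * (n : ℝ) ^ ((7 : ℝ) / 4 - e) := h3
      _ ≤ (n : ℝ) ^ (e / 2) * (n : ℝ) ^ ((7 : ℝ) / 4 - e) := by gcongr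
      _ = (n : ℝ) ^ ((7 : ℝ) / 4 - e / 2) := by
          rw [← Real.rpow_add hnr]
          congr 1
          ring

end Pool.Agent.Results.MP_2e6055_pr.BelowSevenFourths
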